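import Mathlib
import Pool.Agent.Q53.MultiTri.Deca
import Pool.Agent.Q53.MultiTri.Net

set_option autoImplicit false

/-!
# Shortest flip paths may have to flip a common contact point

Both for pseudoline arrangements supported by a sorting network (drawn in the Moebius strip) and
for multitriangulations of a convex polygon there are two arrangements with a common contact point
(two `2`-triangulations with a common edge) such that every shortest path between them in the flip
graph flips the common contact point (edge).
-/

namespace Pool.Agent.Results.MP_1d99bd_co.EveryGeodesicFlips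

open Q53.MultiTri

theorem result :
    -- pseudoline arrangements supported by a sorting network
    (∃ (n m : ℕ) (Q : Fin m → Fin n) (X Y : {X : Finset (Fin m) // IsArr Q X}) (v : Fin m),
      v ∈ X.1 ∧ v ∈ Y.1 ∧ (netGraph Q).Reachable X Y ∧
      ∀ p : (netGraph Q).Walk X Y, p.length = (netGraph Q).dist X Y →
        ∃ Z ∈ p.support, v ∉ Z.1) ∧
    -- 2-triangulations of the convex decagon
    (∃ (S T : KTri 2 10) (e : Edge 10),
      e ∈ S.1 ∧ e ∈ T.1 ∧ (flipGraph 2 10).Reachable S T ∧
      ∀ p : (flipGraph 2 10).Walk S T, p.length = (flipGraph 2 10).dist S T →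
        ∃ U ∈ p.support, e ∉ U.1) := by
  refine ⟨⟨5, 25, Net.Q, Net.X0, Net.X6, 21, Net.main.1, Net.main.2.1, ⟨Net.walk⟩, ?_⟩,
    ⟨Deca.T0, Deca.T6, Deca.lab 21, Deca.main.1, Deca.main.2.1, ⟨Deca.walk⟩, ?_⟩⟩
  · intro p hp
    refine Net.main.2.2.2 p ?_
    rw [hp, ← Net.main.2.2.1]
    exact SimpleGraph.dist_le _
  · intro p hp
    refine Deca.main.2.2.2 p ?_
    rw [hp, ← Deca.main.2.2.1]
    exact SimpleGraph.dist_le _

end Pool.Agent.Results.MP_1d99bd_co.EveryGeodesicFlips
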